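import Pool.Agent.H93.EN.Targets2

/-!
# Bright corners: elementary lemmas
-/

namespace Pool.Agent.H27.EN

open MeasureTheory Set Metric Filter Topology Pool.Agent.H93.BL Pool.Agent.H93.EN

variable {ι : Type} (P : Polygon ι)

theorem VV_finite [Finite ι] : (VV P).Finite := by
  have h : VV P ⊆ range P.p ∪ range P.q := by
    rintro w ⟨i, h | h⟩
    · exact Or.inl ⟨i, h.symm⟩
    · exact Or.inr ⟨i, h.symm⟩
  exact ((finite_range P.p).union (finite_range P.q)).subset h

theorem VV_nonempty (i : ι) : (VV P).Nonempty := ⟨P.p i, i, Or.inl rfl⟩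

theorem not_vtx (j : ι) (w : ℂ) (hw : w ∈ openSegment ℝ (P.p j) (P.q j)) : w ∉ VV P := by
  rintro ⟨i, hi⟩
  have key : w ≠ P.p j ∧ w ≠ P.q j := by
    constructor
    · rintro rfl
      exact P.ne j (left_mem_openSegment_iff.1 hw)
    · rintro rfl
      exact P.ne j (right_mem_openSegment_iff.1 hw)
  by_cases hij : j = i
  · subst hij
    rcases hi with hi | hi
    · exact key.1 hi
    · exact key.2 hi
  · rcases P.meet j i hij with hd | ⟨h1, h2⟩
    · refine Set.disjoint_left.1 hd hw ?_
      rcases hi with rfl | rfl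
      · exact left_mem_segment _ _ _
      · exact right_mem_segment _ _ _
    · rcases hi with hi | hi
      · exact key.2 (hi.trans h1)
      · exact key.1 (hi.trans h2)

theorem infDist_pos [Finite ι] (j : ι) (w : ℂ) (hw : w ∉ VV P) : 0 < infDist w (VV P) :=
  ((VV_finite P).isClosed.notMem_iff_infDist_pos (VV_nonempty P j)).1 hw

theorem sg_sub (j : ι) (y z : ℂ) : sg P j y - sg P j z = cr (P.u j) (y - z) := by
  unfold sg
  rw [← cr_sub_right]
  congr 1
  ring

theorem abs_sg_sub (j : ι) (y z : ℂ) : |sg P j y - sg P j z| ≤ dist y z := by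
  rw [sg_sub]
  refine (abs_cr_le _ _).trans ?_
  rw [P.norm_u, one_mul, dist_eq_norm]

theorem sg_add (j : ι) (y v : ℂ) : sg P j (y + v) = sg P j y + cr (P.u j) v := by
  have := sg_sub P j (y + v) y
  rw [add_sub_cancel_left] at this
  linarith

theorem sg_seg (j : ι) (x : ℂ) (hx : x ∈ openSegment ℝ (P.p j) (P.q j)) : sg P j x = 0 := by
  obtain ⟨s, -, -, rfl⟩ := (P.mem_openSegment_iff j x).1 hx
  unfold sg
  rw [add_sub_cancel_left, cr_smul_right, cr_self, mul_zero]

end Pool.Agent.H27.EN
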