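import Pool.Agent.H27.EN.Basic

/-!
# Bright corners: charts everywhere
-/

namespace Pool.Agent.H27.EN

open MeasureTheory Set Metric Filter Topology Pool.Agent.H93.BL Pool.Agent.H93.EN

theorem subset_of_frontier {Ω S : Set ℂ} (hΩ : IsOpen Ω) (hS : IsPreconnected S) {x : ℂ}
    (hxS : x ∈ S) (hxΩ : x ∈ Ω) (hd : ∀ y ∈ S, y ∉ frontier Ω) : S ⊆ Ω := by
  refine hS.subset_left_of_subset_union (v := (closure Ω)ᶜ) hΩ isClosed_closure.isOpen_compl ?_ ?_ ⟨x, hxS, hxΩ⟩
  · exact disjoint_compl_right.mono_left subset_closure
  · intro y hy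
    by_cases hyΩ : y ∈ Ω
    · exact Or.inl hyΩ
    · refine Or.inr fun hc => hd y hy ?_
      rw [hΩ.frontier_eq]
      exact ⟨hc, hyΩ⟩

theorem sg_rev {ι : Type} (P : Polygon ι) (k k' : ι) (hp : P.p k' = P.q k) (hq : P.q k' = P.p k)
    (y : ℂ) : sg P k' y = -sg P k y := by
  have hlen : P.len k' = P.len k := by
    unfold Polygon.len
    rw [hp, hq, norm_sub_rev]
  have hu : P.u k' = -P.u k := by
    unfold Polygon.u
    rw [hp, hq, hlen, ← neg_div]
    congr 1
    ring
  unfold sg
  rw [hu, hp, P.q_eq, cr_neg_left, ← sub_sub, cr_sub_right, cr_smul_right, cr_self]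
  ring

theorem mem_open_of_mem {ι : Type} (P : Polygon ι) (k : ι) (z : ℂ)
    (hz : z ∈ segment ℝ (P.p k) (P.q k)) (hv : z ∉ VV P) :
    z ∈ openSegment ℝ (P.p k) (P.q k) := by
  refine mem_openSegment_of_ne_left_right ?_ ?_ hz
  · rintro rfl
    exact hv ⟨k, Or.inl rfl⟩
  · rintro rfl
    exact hv ⟨k, Or.inr rfl⟩

theorem convex_lower {ι : Type} (P : Polygon ι) (k : ι) (z : ℂ) (R : ℝ) :
    Convex ℝ {y : ℂ | y ∈ ball z R ∧ sg P k y < 0} := by
  intro a ha b hb s t hs ht hst
  refine ⟨(convex_ball z R) ha.1 hb.1 hs ht hst, ?_⟩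
  have h : sg P k (s • a + t • b) = s * sg P k a + t * sg P k b := by
    unfold sg
    rw [← cr_smul_right, ← cr_smul_right, ← cr_add_right]
    congr 1
    rw [Complex.real_smul, Complex.real_smul]
    have : (t : ℂ) = 1 - (s : ℂ) := by
      rw [eq_sub_iff_add_eq]
      exact_mod_cast (add_comm t s).trans hst
    rw [this]
    ring
  rw [h]
  have ha2 := ha.2
  have hb2 := hb.2
  rcases hs.lt_or_eq with h1 | h1
  · nlinarith [mul_nonneg ht (neg_nonneg.2 hb2.le), mul_pos h1 (neg_pos.2 ha2)]
  · have ht1 : t = 1 := by rw [← h1] at hst; linarith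
    rw [← h1, ht1]
    linarith

theorem ls (h1 : T_LS1) (h2 : T_LSS) (h3 : T_CHT) : T_LS := by
  intro ι _ P
  obtain ⟨c₁, hc₁, hL1⟩ := h1 ι P
  obtain ⟨c₂, hc₂, hL2⟩ := h2 ι P
  obtain ⟨c, hc, hcc₁, hcc₂, hc1⟩ : ∃ c : ℝ, 0 < c ∧ c ≤ c₁ ∧ c ≤ c₂ ∧ c ≤ 1 :=
    ⟨min c₁ (min c₂ 1), by positivity, min_le_left _ _,
      (min_le_right _ _).trans (min_le_left _ _), (min_le_right _ _).trans (min_le_right _ _)⟩
  have hsmall := (h3 ι P).1
  refine ⟨c / 8, by positivity, by linarith, ?_, ?_⟩
  · intro x hx
    set d := infDist x (VV P) with hd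
    have hd0 : 0 ≤ d := infDist_nonneg
    by_cases hfr : ∀ y ∈ ball x (c / 8 * d), y ∉ frontier P.Ω
    · refine ⟨none, ?_⟩
      intro y hy
      have hRpos : 0 < c / 8 * d := lt_of_le_of_lt dist_nonneg (mem_ball.1 hy)
      exact subset_of_frontier P.isOpen (convex_ball x _).isPreconnected
        (mem_ball_self hRpos) hx hfr hy
    · push Not at hfr
      obtain ⟨z, hzb, hzf⟩ := hfr
      rw [P.frontier_eq] at hzf
      obtain ⟨k, hk⟩ := mem_iUnion.1 hzf
      rw [mem_ball] at hzb
      have hdpos : 0 < d := by
        have : 0 < c / 8 * d := lt_of_le_of_lt dist_nonneg hzb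
        by_contra hcon
        have : d = 0 := le_antisymm (not_lt.1 hcon) hd0
        rw [this] at hzb
        simp only [mul_zero] at hzb
        exact absurd hzb (not_lt.2 dist_nonneg)
      have hR : c / 8 * d ≤ d / 8 := by nlinarith
      have hzx : dist z x < d / 8 := hzb.trans_le hR
      have hinf : d ≤ infDist z (VV P) + dist x z := infDist_le_infDist_add_dist
      rw [dist_comm x z] at hinf
      have hdz : d / 2 ≤ infDist z (VV P) := by linarith
      have hzv : z ∉ VV P := by
        intro hv
        have := infDist_zero_of_mem hv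
        linarith
      have hzo := mem_open_of_mem P k z hk hzv
      have hCh : ∀ j, z ∈ openSegment ℝ (P.p j) (P.q j) → 0 ≤ sg P j x →
          Chart P x (c / 8 * d) (some j) := by
        intro j hj hsg
        refine hsmall z x _ _ (some j) (hL2 j z hj) ?_ ?_
        · have e1 : c * (d / 2) ≤ c₂ * infDist z (VV P) :=
            mul_le_mul hcc₂ hdz (by positivity) hc₂.le
          rw [dist_comm x z]
          have e2 : 0 < c * d := by positivity
          linarith
        · intro j' hj'
          obtain rfl := Option.some.inj hj'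
          exact hsg
      by_cases hsg : 0 ≤ sg P k x
      · exact ⟨some k, hCh k hzo hsg⟩
      · rw [not_le] at hsg
        -- the lower half disc
        have hrad : c / 8 * d < c * (d / 2) := by
          have e2 : 0 < c * d := by positivity
          linarith
        have hH : {y : ℂ | y ∈ ball z (c * (d / 2)) ∧ sg P k y < 0} ⊆ P.Ω := by
          refine subset_of_frontier P.isOpen (convex_lower P k z _).isPreconnected
            (x := x) ⟨?_, hsg⟩ hx ?_
          · rw [mem_ball, dist_comm]
            exact hzb.trans hrad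
          · rintro y ⟨hyb, hys⟩ hyf
            rw [P.frontier_eq] at hyf
            obtain ⟨j, hj⟩ := mem_iUnion.1 hyf
            have hline : ∀ y ∈ segment ℝ (P.p k) (P.q k), sg P k y = 0 := by
              intro y hy
              obtain ⟨s, -, -, rfl⟩ := (P.mem_segment_iff k y).1 hy
              unfold sg
              rw [add_sub_cancel_left, cr_smul_right, cr_self, mul_zero]
            by_cases hkj : k = j
            · subst hkj
              exact absurd (hline y hj) hys.ne
            · rcases P.meet k j hkj with hdis | ⟨hp, hq⟩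
              · have h6 := hL1 k j hdis z hzo y hj
                rw [mem_ball, dist_comm] at hyb
                have e1 : c * (d / 2) ≤ c₁ * infDist z (VV P) :=
                  mul_le_mul hcc₁ hdz (by positivity) hc₁.le
                linarith
              · rw [hp, hq, segment_symm] at hj
                exact absurd (hline y hj) hys.ne
        obtain ⟨k', hp', hq'⟩ := P.slit k z hzo (by
          have hlen := P.len_pos k
          refine ⟨c * (d / 2) / P.len k, by positivity, ?_⟩
          rintro t ⟨ht0, ht1⟩
          have e1 : z - (t : ℂ) * (Complex.I * (P.q k - P.p k)) =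
              z + ((-(t * P.len k) : ℝ) : ℂ) * P.n k := by
            rw [P.q_sub]
            unfold Polygon.n
            push_cast
            ring
          rw [e1]
          have htl : 0 < t * P.len k := by positivity
          refine hH ⟨?_, ?_⟩
          · rw [mem_ball, dist_eq_norm, add_sub_cancel_left, norm_mul, P.norm_n,
              Complex.norm_real, Real.norm_eq_abs, abs_neg, abs_of_pos htl, mul_one]
            exact (lt_div_iff₀ hlen).1 ht1
          · rw [sg_add, sg_seg P k z hzo, cr_smul_right, ← P.ip_n, P.ip_n_n]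
            linarith)
        refine ⟨some k', hCh k' ?_ ?_⟩
        · rw [hp', hq', openSegment_symm]
          exact hzo
        · rw [sg_rev P k k' hp' hq']
          linarith
  · intro j x hx
    refine hsmall x x _ _ (some j) (hL2 j x hx) ?_ ?_
    · rw [dist_self, zero_add]
      have h0 : 0 ≤ infDist x (VV P) := infDist_nonneg
      have : c / 8 ≤ c₂ := by linarith
      exact mul_le_mul_of_nonneg_right this h0
    · intro j' hj'
      obtain rfl := Option.some.inj hj'
      rw [sg_seg P j x hx]

end Pool.Agent.H27.EN
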