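import Pool.Agent.H93.EN.Targets

/-!
# Bright corners: the second round
-/

namespace Pool.Agent.H27.EN

open MeasureTheory Set Metric Filter Topology Pool.Agent.H93.BL Pool.Agent.H93.EN

theorem sec (h1 : T_PIG) (h2 : T_EN) : T_SEC := by
  intro ι _ D hG ε hε r₀ hr₀
  obtain ⟨C, hC, c, hc, R₀, hR₀, hEN⟩ := h2 ι D
  have hκ := D.κpos
  obtain ⟨c', hc'0, hc'c, hc'κ, hc'1⟩ : ∃ c' : ℝ, 0 < c' ∧ c' ≤ c ∧ c' ≤ D.κ / 10 ∧ c' ≤ 1 := by
    refine ⟨min c (min (D.κ / 10) 1), by positivity, min_le_left _ _, ?_, ?_⟩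
    · exact (min_le_right _ _).trans (min_le_left _ _)
    · exact (min_le_right _ _).trans (min_le_right _ _)
  obtain ⟨r, ⟨hr0, hr1⟩, hr⟩ := h1 ι D hG (4 * c' * ε / C) (by positivity) (min r₀ (R₀ / 8))
    (by positivity)
  have hrr₀ : r < r₀ := hr1.trans_le (min_le_left _ _)
  have hrR₀ : r < R₀ / 8 := hr1.trans_le (min_le_right _ _)
  have hδ0 : 0 < c' * r := by positivity
  have hδr : c' * r ≤ r := by nlinarith
  refine ⟨r, ⟨hr0, hrr₀⟩, c' * r, ⟨hδ0, lt_of_le_of_lt hδr hrr₀⟩, ?_, ?_⟩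
  · have : c' * r ≤ D.κ / 10 * r := mul_le_mul_of_nonneg_right hc'κ hr0.le
    have h3 : 0 < D.κ * r := by positivity
    nlinarith
  · intro m
    have hR : 4 * r ∈ Ioo 0 R₀ := ⟨by positivity, by linarith⟩
    have hδ : c' * r ≤ c * (4 * r) := by
      have : c' * r ≤ c * r := mul_le_mul_of_nonneg_right hc'c hr0.le
      have h3 : 0 < c * r := by positivity
      nlinarith
    have h := hEN (4 * r) hR (c' * r) hδ0 hδ m
    have e1 : 2 * (4 * r) = 8 * r := by ring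
    have e2 : 4 * r / 2 = 2 * r := by ring
    have e3 : 3 * (4 * r) = 12 * r := by ring
    rw [e1, e2, e3] at h
    refine h.trans ?_
    have hp : 0 ≤ C / (c' * r * (4 * r)) := by positivity
    refine (mul_le_mul_of_nonneg_left hr hp).trans (le_of_eq ?_)
    field_simp

end Pool.Agent.H27.EN
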