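import Pool.Agent.H27.EN.Basic

/-!
# Bright corners: the mean is small near a side in `E` or in `U`
-/

namespace Pool.Agent.H27.EN

open MeasureTheory Set Metric Filter Topology Pool.Agent.H93.BL Pool.Agent.H93.EN

theorem av_zero : av (fun _ => (0 : ℝ)) = 0 := by
  unfold av
  simp

theorem fe_bd {ι : Type} (P : Polygon ι) (E : Set ι) (U : Set ℂ) (y w : ℂ) :
    0 ≤ FE P E U y w ∧ FE P E U y w ≤ 1 := by
  unfold FE
  split_ifs <;> norm_num

theorem sml (h1 : T_LSS) (h2 : T_CHT) (h3 : T_FEC) (h4 : T_ARC) (h5 : T_INM) : T_SML := by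
  intro ι _ P E U hU hUΩ hne D hP hF ε hε
  subst hP
  rcases hne with ⟨e, he⟩ | ⟨x₀, hx₀⟩
  · obtain ⟨c, hc, hch⟩ := h1 ι D.P
    -- the midpoint of the side
    set L := D.P.len e with hL
    have hLpos : 0 < L := D.P.len_pos e
    obtain ⟨x', hx'⟩ : ∃ x', x' ∈ openSegment ℝ (D.P.p e) (D.P.q e) :=
      ⟨D.P.p e + ((L / 2 : ℝ) : ℂ) * D.P.u e,
        (D.P.mem_openSegment_iff e _).2 ⟨L / 2, by positivity, by linarith, rfl⟩⟩
    have hd : 0 < infDist x' (VV D.P) := infDist_pos D.P e x' (not_vtx D.P e x' hx')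
    have hR : 0 < c * infDist x' (VV D.P) := mul_pos hc hd
    set R := c * infDist x' (VV D.P) with hRdef
    have hC : Chart D.P x' R (some e) := hch e x' hx'
    obtain ⟨h, hh0, hh1, hh2⟩ : ∃ h : ℝ, 0 < h ∧ h ≤ R / 8 ∧ h ≤ ε * R / 4 :=
      ⟨min (R / 8) (ε * R / 4), by positivity, min_le_left _ _, min_le_right _ _⟩
    set x₀ := x' + (h : ℂ) * D.P.n e with hx₀
    have hs0 : sg D.P e x₀ = h := by
      rw [hx₀, sg_add, sg_seg D.P e x' hx', cr_smul_right, ← D.P.ip_n, D.P.ip_n_n]
      ring
    have hd0 : dist x₀ x' = h := by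
      rw [hx₀, dist_eq_norm, add_sub_cancel_left, norm_mul, D.P.norm_n, Complex.norm_real,
        Real.norm_eq_abs, abs_of_pos hh0, mul_one]
    have hx : ∀ x ∈ ball x₀ (h / 2), h / 2 < sg D.P e x ∧ sg D.P e x < 2 * h ∧
        dist x x' < 2 * h := by
      intro x hx
      rw [mem_ball] at hx
      have h6 := abs_le.1 (abs_sg_sub D.P e x x₀)
      rw [hs0] at h6
      have h7 := dist_triangle x x₀ x'
      rw [hd0] at h7
      refine ⟨by linarith [h6.1], by linarith [h6.2], by linarith⟩
    refine ⟨x₀, h / 2, by positivity, ?_, ?_⟩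
    · intro x hxb
      obtain ⟨a1, a2, a3⟩ := hx x hxb
      exact hC.2.1 x (mem_ball.2 (by linarith)) (by linarith)
    · intro x hxb
      obtain ⟨a1, a2, a3⟩ := hx x hxb
      have hC' : Chart D.P x (R / 2) (some e) := by
        refine (h2 ι D.P).1 x' x R (R / 2) (some e) hC (by linarith) ?_
        intro j hj
        obtain rfl := Option.some.inj hj
        linarith
      have hmeas : Measurable (FE D.P E U x) := by
        have := h5 ι D.P E U hU hUΩ
        exact this.comp measurable_prodMk_left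
      have hav := h4 (D.P.u e) (4 * h / R) (FE D.P E U x) (D.P.norm_u e) (by positivity) hmeas
        (fun w => fe_bd D.P E U x w) (by
          intro w hw hcr
          refine h3 ι D.P E U e he x (R / 2) w (by positivity) hC' hw (by linarith) ?_
          rw [div_lt_iff₀ hR] at hcr
          nlinarith)
      have h8 : D.f0 x = av (FE D.P E U x) := by
        unfold Dat.f0
        rw [hF]
      rw [h8]
      refine hav.trans ?_
      rw [div_le_iff₀ hR]
      linarith
  · obtain ⟨s, hs, hball⟩ := Metric.isOpen_iff.1 hU x₀ hx₀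
    refine ⟨x₀, s, hs, hball.trans hUΩ, ?_⟩
    intro x hx
    have hxU : x ∈ U := hball hx
    have hz : D.F x = fun _ => (0 : ℝ) := by
      funext w
      rw [hF]
      unfold FE
      rw [if_neg]
      rintro ⟨-, -, h6, -⟩
      refine h6 (Or.inl ⟨0, le_rfl, ?_, ?_⟩)
      · simpa using hxU
      · intro r hr
        simp at hr
    unfold Dat.f0
    rw [hz, av_zero]
    exact hε.le

end Pool.Agent.H27.EN
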